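import Mathlib

/-! Broadcasts in graphs. -/

set_option autoImplicit false

namespace Pool.Agent.R358.BC

variable {V : Type}

/-- a broadcast: the value at `v` is at most the eccentricity of `v` in its component -/
def IsBroadcast (G : SimpleGraph V) (f : V → ℕ) : Prop :=
  ∀ v, ∃ u, G.Reachable v u ∧ f v ≤ G.dist v u

/-- the vertex `u` hears the broadcast `f` from the vertex `v` -/
def Hears (G : SimpleGraph V) (f : V → ℕ) (u v : V) : Prop :=
  0 < f v ∧ G.Reachable u v ∧ G.dist u v ≤ f v

/-- every vertex hears the broadcast -/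
def Dominates (G : SimpleGraph V) (f : V → ℕ) : Prop := ∀ u, ∃ v, Hears G f u v

/-- the cost of a broadcast -/
def cost [Fintype V] (f : V → ℕ) : ℕ := ∑ v, f v

/-- the private boundary of `v`: the vertices at distance at most `f v` from `v` which hear no
vertex when the value at `v` is lowered by one -/
def PB [DecidableEq V] (G : SimpleGraph V) (f : V → ℕ) (v : V) : Set V :=
  {u | (G.Reachable u v ∧ G.dist u v ≤ f v) ∧
    ∀ w, ¬ Hears G (Function.update f v (f v - 1)) u w}

/-- an irredundant broadcast -/
def Irredundant [DecidableEq V] (G : SimpleGraph V) (f : V → ℕ) : Prop :=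
  ∀ v, 0 < f v → (PB G f v).Nonempty

/-- a maximal irredundant broadcast -/
def MaximalIrredundant [DecidableEq V] (G : SimpleGraph V) (f : V → ℕ) : Prop :=
  IsBroadcast G f ∧ Irredundant G f ∧
    ∀ g, IsBroadcast G g → (∀ v, f v ≤ g v) → g ≠ f → ¬ Irredundant G g

/-- the broadcast number -/
noncomputable def broadcastNumber [Fintype V] (G : SimpleGraph V) : ℕ :=
  sInf {c | ∃ f, IsBroadcast G f ∧ Dominates G f ∧ cost f = c}

/-- the broadcast irredundance number -/
noncomputable def irNumber [Fintype V] [DecidableEq V] (G : SimpleGraph V) : ℕ :=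
  sInf {c | ∃ f, MaximalIrredundant G f ∧ cost f = c}

/-- a maximal irredundant broadcast of minimum cost -/
def IsIrBroadcast [Fintype V] [DecidableEq V] (G : SimpleGraph V) (f : V → ℕ) : Prop :=
  MaximalIrredundant G f ∧ cost f = irNumber G

/-- the disjoint union of `r` complete graphs on two vertices -/
def rK2 (r : ℕ) : SimpleGraph (Fin r × Fin 2) where
  Adj a b := a.1 = b.1 ∧ a.2 ≠ b.2
  symm := ⟨fun _ _ h => ⟨h.1.symm, h.2.symm⟩⟩
  loopless := ⟨fun _ h => h.2 rfl⟩

/-- all the positive values are one, and the vertices where they occur induce a disjoint union of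
complete graphs on two vertices -/
def Good (G : SimpleGraph V) (f : V → ℕ) : Prop :=
  (∀ v, 0 < f v → f v = 1) ∧ ∃ r : ℕ, Nonempty (G.induce {v | 0 < f v} ≃g rK2 r)

end Pool.Agent.R358.BC
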