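import Pool.Agent.R358.BC.Tab

/-! Soundness of the search. -/

set_option autoImplicit false

namespace Pool.Agent.R358.BC

/-- `u` lies in the private boundary of `x` -/
def PBset (F : ℕ → ℕ) (x u : ℕ) : Prop :=
  d x u ≤ F x ∧ ¬ (0 < F x - 1 ∧ d x u ≤ F x - 1) ∧ ∀ i < 19, i ≠ x → ¬ (0 < F i ∧ d i u ≤ F i)

def IrrN (F : ℕ → ℕ) : Prop := ∀ x < 19, 0 < F x → ∃ u < 19, PBset F x u

def f0 (i : ℕ) : ℕ := if i ∈ [2, 3, 6, 7, 12, 13] then 1 else 0

def Concl (F : ℕ → ℕ) : Prop :=
  (∃ g : ℕ → ℕ, (∀ i < 19, F i ≤ g i) ∧ (∃ i < 19, F i ≠ g i) ∧ (∀ i < 19, g i ≤ ec i) ∧ IrrN g) ∨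
    ∀ i < 19, F i = f0 i

lemma bm_spec : ∀ i < 19, ∀ k < 14, ∀ u < 19,
    Nat.testBit (bm i (k + 1)) u = decide (d i u ≤ k + 1) := by decide +kernel

lemma bm_lt : ∀ i < 19, ∀ k < 15, bm i k < 2 ^ 19 := by decide +kernel

lemma M_bit : ∀ u < 19, Nat.testBit M u = true := by decide +kernel

lemma ec_le : ∀ i < 19, 1 ≤ ec i ∧ ec i ≤ 14 := by decide +kernel

lemma bm_bit {i u k : ℕ} (hi : i < 19) (hu : u < 19) (hk : k ≤ 14) :
    Nat.testBit (bm i k) u = true ↔ 0 < k ∧ d i u ≤ k := by
  rcases k with _ | k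
  · simp [bm]
  · rw [bm_spec i hi k (by omega) u hu]
    simp

lemma land_bit (a b u : ℕ) : Nat.testBit (Nat.land a b) u = true ↔
    Nat.testBit a u = true ∧ Nat.testBit b u = true := by
  have : Nat.land a b = a &&& b := rfl
  rw [this, Nat.testBit_and, Bool.and_eq_true]

lemma lor_bit (a b u : ℕ) : Nat.testBit (Nat.lor a b) u = true ↔
    Nat.testBit a u = true ∨ Nat.testBit b u = true := by
  have : Nat.lor a b = a ||| b := rfl
  rw [this, Nat.testBit_or, Bool.or_eq_true]

lemma co_bit {a u : ℕ} (hu : u < 19) : Nat.testBit (Nat.xor M a) u = true ↔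
    ¬ Nat.testBit a u = true := by
  have : Nat.xor M a = M ^^^ a := rfl
  rw [this, Nat.testBit_xor, M_bit u hu]
  simp

lemma land_le (a b : ℕ) : Nat.land a b ≤ a := Nat.and_le_left

lemma exists_bit {p : ℕ} (hp : p < 2 ^ 19) (h0 : p ≠ 0) : ∃ u < 19, Nat.testBit p u = true := by
  obtain ⟨u, hu⟩ := Nat.exists_testBit_of_ne_zero h0
  refine ⟨u, ?_, hu⟩
  by_contra hlt
  rw [Nat.testBit_lt_two_pow (lt_of_lt_of_le hp (Nat.pow_le_pow_right (by norm_num) (not_lt.1 hlt)))] at hu
  exact absurd hu (by simp)

/-! ### the mask of the private boundary -/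

lemma orAll_bit (g : ℕ → ℕ) (x u : ℕ) (l : List ℕ) : Nat.testBit (orAll g x l) u = true ↔
    ∃ i ∈ l, Nat.testBit (if i = x then bm x (g x - 1) else bm i (g i)) u = true := by
  induction l with
  | nil => simp [orAll]
  | cons a l ih =>
    rw [orAll, lor_bit, ih]
    simp only [List.mem_cons, exists_eq_or_imp]
    exact or_comm

lemma pbm_bit {g : ℕ → ℕ} {x u : ℕ} (hg : ∀ i < 19, g i ≤ 14) (hx : x < 19) (hu : u < 19)
    (h0 : 0 < g x) : Nat.testBit (pbm g x) u = true ↔ PBset g x u := by
  rw [pbm, land_bit, co_bit hu, orAll_bit, bm_bit hx hu (hg x hx), PBset]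
  constructor
  · rintro ⟨⟨_, h1⟩, h2⟩
    refine ⟨h1, ?_, ?_⟩
    · intro h3
      apply h2
      refine ⟨x, List.mem_range.2 hx, ?_⟩
      rw [if_pos rfl, bm_bit hx hu (by have := hg x hx; omega)]
      exact h3
    · intro i hi hix h3
      apply h2
      refine ⟨i, List.mem_range.2 hi, ?_⟩
      rw [if_neg hix, bm_bit hi hu (hg i hi)]
      exact h3
  · rintro ⟨h1, h2, h3⟩
    refine ⟨⟨h0, h1⟩, ?_⟩
    rintro ⟨i, hi, h4⟩
    have hi' := List.mem_range.1 hi
    by_cases hix : i = x
    · rw [if_pos hix, bm_bit hx hu (by have := hg x hx; omega)] at h4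
      exact h2 h4
    · rw [if_neg hix, bm_bit hi' hu (hg i hi')] at h4
      exact h3 i hi' hix h4

lemma pbm_lt (g : ℕ → ℕ) {x : ℕ} (hx : x < 19) (h : g x ≤ 14) : pbm g x < 2 ^ 19 :=
  lt_of_le_of_lt (land_le _ _) (bm_lt x hx (g x) (by omega))

lemma irrF_sound {g : ℕ → ℕ} (h : irrF g = true) : IrrN g ∧ ∀ i < 19, g i ≤ ec i := by
  rw [irrF, List.all_eq_true] at h
  have h1 : ∀ i < 19, g i ≤ ec i := by
    intro i hi
    have := h i (List.mem_range.2 hi)
    rw [Bool.and_eq_true, decide_eq_true_eq] at this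
    exact this.2
  have h2 : ∀ i < 19, g i ≤ 14 := fun i hi => (h1 i hi).trans (ec_le i hi).2
  refine ⟨?_, h1⟩
  intro x hx h0
  have := h x (List.mem_range.2 hx)
  rw [Bool.and_eq_true, Bool.or_eq_true, beq_iff_eq, bne_iff_ne] at this
  rcases this.1 with h3 | h3
  · omega
  · obtain ⟨u, hu, hb⟩ := exists_bit (pbm_lt g hx (h2 x hx)) h3
    exact ⟨u, hu, (pbm_bit h2 hx hu h0).1 hb⟩

/-! ### lists -/

lemma cutL_some {c : ℕ} {L L' : List (ℕ × ℕ × ℕ)} (h : cutL c L = some L') :
    L' = L.map fun e => (e.1, e.2.1, Nat.land e.2.2 c) := by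
  induction L generalizing L' with
  | nil => simp only [cutL, Option.some.injEq] at h; rw [← h]; rfl
  | cons a L ih =>
    obtain ⟨v, k, p⟩ := a
    rw [cutL] at h
    split at h
    · exact absurd h (by simp)
    · rename_i q hq
      split at h
      · exact absurd h (by simp)
      · rename_i L'' hL''
        rw [Option.some.injEq] at h
        rw [← h, List.map_cons, ih hL'']
        simp only [hq, Nat.succ_eq_add_one]

lemma cutL_none {c : ℕ} {L : List (ℕ × ℕ × ℕ)} (h : cutL c L = none) :
    ∃ e ∈ L, Nat.land e.2.2 c = 0 := by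
  induction L with
  | nil => simp [cutL] at h
  | cons a L ih =>
    obtain ⟨v, k, p⟩ := a
    rw [cutL] at h
    split at h
    · rename_i hq
      exact ⟨(v, k, p), List.mem_cons_self, hq⟩
    · split at h
      · rename_i hL
        obtain ⟨e, he, h0⟩ := ih hL
        exact ⟨e, List.mem_cons_of_mem _ he, h0⟩
      · exact absurd h (by simp)

lemma aliveL_true {c : ℕ} {L : List (ℕ × ℕ × ℕ)} (h : aliveL c L = true) :
    ∀ e ∈ L, Nat.land e.2.2 c ≠ 0 := by
  induction L with
  | nil => simp
  | cons a L ih =>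
    obtain ⟨v, k, p⟩ := a
    rw [aliveL] at h
    split at h
    · exact absurd h (by simp)
    · rename_i q hq
      intro e he
      rcases List.mem_cons.1 he with rfl | he
      · simp only; omega
      · exact ih h e he

lemma quick_true {cd : ℕ} {L : List (ℕ × ℕ × ℕ)} {Q : List (ℕ × ℕ × ℕ)}
    (h : quick cd L Q = true) : ∃ q ∈ Q, Nat.land q.2.1 cd ≠ 0 ∧ aliveL q.2.2 L = true := by
  induction Q with
  | nil => simp [quick] at h
  | cons a Q ih =>
    obtain ⟨x, b, cb⟩ := a
    rw [quick] at h
    split at h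
    · obtain ⟨q, hq, h1⟩ := ih h
      exact ⟨q, List.mem_cons_of_mem _ hq, h1⟩
    · rename_i p hp
      split at h
      · rename_i ha
        exact ⟨(x, b, cb), List.mem_cons_self, by simp only; omega, ha⟩
      · obtain ⟨q, hq, h1⟩ := ih h
        exact ⟨q, List.mem_cons_of_mem _ hq, h1⟩

lemma valL_map (c : ℕ) (L : List (ℕ × ℕ × ℕ)) (i : ℕ) :
    valL (L.map fun e => (e.1, e.2.1, Nat.land e.2.2 c)) i = valL L i := by
  induction L with
  | nil => rfl
  | cons a L ih =>
    obtain ⟨v, k, p⟩ := a
    simp only [List.map_cons, valL, ih]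

lemma valL_mem {L : List (ℕ × ℕ × ℕ)} {i : ℕ} (h : valL L i ≠ 0) : ∃ e ∈ L, e.1 = i := by
  induction L with
  | nil => simp [valL] at h
  | cons a L ih =>
    obtain ⟨v, k, p⟩ := a
    by_cases hi : i = v
    · exact ⟨_, List.mem_cons_self, hi.symm⟩
    · rw [valL, if_neg hi] at h
      obtain ⟨e, he, h1⟩ := ih h
      exact ⟨e, List.mem_cons_of_mem _ he, h1⟩

def valK : List (ℕ × ℕ) → ℕ → ℕ
  | [], _ => 0
  | (v, k) :: L, i => if i = v then k else valK L i

lemma valL_valK (L : List (ℕ × ℕ × ℕ)) (i : ℕ) :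
    valL L i = valK (L.map fun e => (e.1, e.2.1)) i := by
  induction L with
  | nil => rfl
  | cons a L ih =>
    obtain ⟨v, k, p⟩ := a
    simp only [List.map_cons, valL, valK, ih]

/-! ### the invariant -/

structure Inv (F : ℕ → ℕ) (v cd : ℕ) (L : List (ℕ × ℕ × ℕ)) : Prop where
  cdb : ∀ u < 19, (Nat.testBit cd u = true ↔ ∀ i < v, ¬ (0 < F i ∧ d i u ≤ F i))
  val : ∀ i, valL L i = if i < v then F i else 0
  ent : ∀ e ∈ L, e.1 < v ∧ 0 < F e.1 ∧ e.2.2 < 2 ^ 19 ∧ ∀ u < 19, (Nat.testBit e.2.2 u = true ↔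
    (d e.1 u ≤ F e.1 ∧ ¬ (0 < F e.1 - 1 ∧ d e.1 u ≤ F e.1 - 1) ∧
      ∀ i < v, i ≠ e.1 → ¬ (0 < F i ∧ d i u ≤ F i)))

lemma Inv.skip {F : ℕ → ℕ} {v cd : ℕ} {L : List (ℕ × ℕ × ℕ)} (h : Inv F v cd L) (h0 : F v = 0) :
    Inv F (v + 1) cd L := by
  have key : ∀ (P : ℕ → Prop), (∀ i < v + 1, ¬ (0 < F i ∧ P i)) ↔ ∀ i < v, ¬ (0 < F i ∧ P i) := by
    intro P
    constructor
    · intro h1 i hi
      exact h1 i (by omega)
    · intro h1 i hi h2
      rcases Nat.lt_succ_iff_lt_or_eq.1 hi with h3 | rfl
      · exact h1 i h3 h2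
      · omega
  refine ⟨?_, ?_, ?_⟩
  · intro u hu
    rw [h.cdb u hu]
    exact (key _).symm
  · intro i
    rw [h.val i]
    by_cases h1 : i < v
    · rw [if_pos h1, if_pos (by omega)]
    · rw [if_neg h1]
      by_cases h2 : i < v + 1
      · have : i = v := by omega
        rw [if_pos h2, this, h0]
      · rw [if_neg h2]
  · intro e he
    obtain ⟨h1, h2, h3, h4⟩ := h.ent e he
    refine ⟨by omega, h2, h3, fun u hu => ?_⟩
    rw [h4 u hu]
    refine and_congr_right fun _ => and_congr_right fun _ => ?_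
    constructor
    · intro h5 i hi hie h6
      rcases Nat.lt_succ_iff_lt_or_eq.1 hi with h7 | rfl
      · exact h5 i h7 hie h6
      · omega
    · intro h5 i hi
      exact h5 i (by omega)

lemma Inv.full {F : ℕ → ℕ} {v cd : ℕ} {L : List (ℕ × ℕ × ℕ)} (h : Inv F v cd L)
    (hv : v ≤ 19) (h0 : ∀ i, v ≤ i → i < 19 → F i = 0) : Inv F 19 cd L := by
  obtain ⟨m, rfl⟩ : ∃ m, v = 19 - m := ⟨19 - v, by omega⟩
  induction m with
  | zero => exact h
  | succ m ih =>
    by_cases hm : m < 19
    · have h1 := h.skip (h0 _ le_rfl (by omega))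
      have h2 : 19 - (m + 1) + 1 = 19 - m := by omega
      rw [h2] at h1
      exact ih h1 (by omega) fun i hi hi' => h0 i (by omega) hi'
    · have h2 : 19 - (m + 1) = 19 - m := by omega
      rw [h2] at h
      exact ih h (by omega) fun i hi hi' => h0 i (by omega) hi'

lemma step_bit {F : ℕ → ℕ} {v u k : ℕ} (hv : v < 19) (hu : u < 19) (hk : k ≤ 14) (hF : F v = k)
    (a : ℕ) : Nat.testBit (Nat.land a (Nat.xor M (bm v k))) u = true ↔
      Nat.testBit a u = true ∧ ¬ (0 < F v ∧ d v u ≤ F v) := by
  rw [land_bit, co_bit hu, bm_bit hv hu hk, hF]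

/-- sphere and complement of the ball -/
def sc (v k : ℕ) : ℕ × ℕ := (Nat.land (bm v k) (Nat.xor M (bm v (k - 1))), Nat.xor M (bm v k))

lemma Inv.take {F : ℕ → ℕ} {v cd k : ℕ} {L : List (ℕ × ℕ × ℕ)} (h : Inv F v cd L) (hv : v < 19)
    (hk : k ≤ 14) (hk0 : 0 < k) (hF : F v = k) :
    Inv F (v + 1) (Nat.land cd (sc v k).2)
      ((v, k, Nat.land (sc v k).1 cd) :: L.map fun e => (e.1, e.2.1, Nat.land e.2.2 (sc v k).2)) := by
  have hs : ∀ u < 19, Nat.testBit (Nat.land (sc v k).1 cd) u = true ↔
      (d v u ≤ F v ∧ ¬ (0 < F v - 1 ∧ d v u ≤ F v - 1)) ∧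
        ∀ i < v, ¬ (0 < F i ∧ d i u ≤ F i) := by
    intro u hu
    rw [land_bit, h.cdb u hu, sc, land_bit, co_bit hu, bm_bit hv hu hk,
      bm_bit hv hu (by omega : k - 1 ≤ 14), hF]
    constructor
    · rintro ⟨⟨⟨_, h1⟩, h2⟩, h3⟩
      exact ⟨⟨h1, h2⟩, h3⟩
    · rintro ⟨⟨h1, h2⟩, h3⟩
      exact ⟨⟨⟨hk0, h1⟩, h2⟩, h3⟩
  refine ⟨?_, ?_, ?_⟩
  · intro u hu
    rw [sc, step_bit hv hu hk hF, h.cdb u hu]
    constructor
    · rintro ⟨h1, h2⟩ i hi
      rcases Nat.lt_succ_iff_lt_or_eq.1 hi with h3 | rfl
      · exact h1 i h3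
      · exact h2
    · intro h1
      exact ⟨fun i hi => h1 i (by omega), h1 v (by omega)⟩
  · intro i
    rw [valL]
    by_cases hi : i = v
    · rw [if_pos hi, if_pos (by omega), hi, hF]
    · rw [if_neg hi, valL_map, h.val i]
      by_cases h1 : i < v
      · rw [if_pos h1, if_pos (by omega)]
      · rw [if_neg h1, if_neg (by omega)]
  · intro e he
    rcases List.mem_cons.1 he with rfl | he
    · refine ⟨by simp, by simp only; omega, ?_, ?_⟩
      · refine lt_of_le_of_lt (land_le _ _) ?_
        exact lt_of_le_of_lt (land_le _ _) (bm_lt v hv k (by omega))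
      · intro u hu
        simp only
        rw [hs u hu, and_assoc]
        refine and_congr_right fun _ => and_congr_right fun _ => ?_
        constructor
        · intro h5 i hi hie
          exact h5 i (by omega)
        · intro h5 i hi
          exact h5 i (by omega) (by omega)
    · obtain ⟨e', he', rfl⟩ := List.mem_map.1 he
      obtain ⟨h1, h2, h3, h4⟩ := h.ent e' he'
      refine ⟨by simp only; omega, h2, lt_of_le_of_lt (land_le _ _) h3, ?_⟩
      intro u hu
      simp only
      rw [sc, step_bit hv hu hk hF, h4 u hu, and_assoc, and_assoc]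
      refine and_congr_right fun _ => and_congr_right fun _ => ?_
      constructor
      · rintro ⟨h5, h6⟩ i hi hie
        rcases Nat.lt_succ_iff_lt_or_eq.1 hi with h7 | rfl
        · exact h5 i h7 hie
        · exact h6
      · intro h5
        exact ⟨fun i hi hie => h5 i (by omega) hie, h5 v (by omega) (by omega)⟩

/-! ### the leaves -/

lemma QT_spec : ∀ q ∈ QT, q.1 < 19 ∧ q.2.1 = bm q.1 1 ∧ q.2.2 = Nat.xor M (bm q.1 1) := by
  decide +kernel

lemma mods_spec : ∀ m ∈ mods, ∃ j ∈ m, j < 19 := by decide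

lemma f0_spec : ∀ i < 19,
    valK [(13, 1), (12, 1), (7, 1), (6, 1), (3, 1), (2, 1)] i = f0 i := by decide +kernel

lemma leaf_sound {F : ℕ → ℕ} {cd : ℕ} {L : List (ℕ × ℕ × ℕ)} (h : Inv F 19 cd L)
    (hle : ∀ i < 19, F i ≤ ec i) (hl : leaf cd L = true) : Concl F := by
  rw [leaf] at hl
  split at hl
  · rename_i hq
    obtain ⟨⟨x, b, cb⟩, hmem, h1, h2⟩ := quick_true hq
    obtain ⟨hx, hb, hcb⟩ := QT_spec _ hmem
    simp only at hx hb hcb h1 h2
    have h3 := aliveL_true h2
    have hlt : Nat.land b cd < 2 ^ 19 :=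
      lt_of_le_of_lt (land_le _ _) (by rw [hb]; exact bm_lt x hx 1 (by omega))
    obtain ⟨u, hu, hbit⟩ := exists_bit hlt h1
    rw [land_bit, hb, bm_bit hx hu (by omega : 1 ≤ 14), h.cdb u hu] at hbit
    obtain ⟨⟨_, hxu⟩, hund⟩ := hbit
    have hFx : F x = 0 := by
      by_contra hne
      exact hund x hx ⟨by omega, by omega⟩
    refine Or.inl ⟨Function.update F x 1, ?_, ⟨x, hx, ?_⟩, ?_, ?_⟩
    · intro i _
      by_cases hix : i = x
      · rw [hix, Function.update_self]; omega
      · rw [Function.update_of_ne hix]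
    · rw [Function.update_self]; omega
    · intro i hi
      by_cases hix : i = x
      · rw [hix, Function.update_self]; exact (ec_le x hx).1
      · rw [Function.update_of_ne hix]; exact hle i hi
    · intro y hy h0
      by_cases hyx : y = x
      · refine ⟨u, hu, ?_⟩
        rw [hyx]
        refine ⟨by rw [Function.update_self]; exact hxu, by rw [Function.update_self]; omega, ?_⟩
        intro i hi hix
        rw [Function.update_of_ne hix]
        exact hund i hi
      · rw [Function.update_of_ne hyx] at h0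
        have hval : valL L y ≠ 0 := by rw [h.val y, if_pos hy]; omega
        obtain ⟨e, he, hey⟩ := valL_mem hval
        obtain ⟨_, _, he3, he4⟩ := h.ent e he
        obtain ⟨w, hw, hwb⟩ := exists_bit (lt_of_le_of_lt (land_le _ _) he3) (h3 e he)
        rw [land_bit, he4 w hw, hcb, co_bit hw, bm_bit hx hw (by omega : 1 ≤ 14)] at hwb
        obtain ⟨⟨h5, h6, h7⟩, h8⟩ := hwb
        refine ⟨w, hw, ?_⟩
        rw [hey] at h5 h6 h7
        refine ⟨?_, ?_, ?_⟩
        · rw [Function.update_of_ne hyx]; exact h5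
        · rw [Function.update_of_ne hyx]; exact h6
        · intro i hi hiy
          by_cases hix : i = x
          · rw [hix, Function.update_self]; exact h8
          · rw [Function.update_of_ne hix]; exact h7 i hi hiy
  · rw [Bool.or_eq_true] at hl
    rcases hl with hl | hl
    · rw [isF0, beq_iff_eq] at hl
      right
      intro i hi
      have h1 := h.val i
      rw [if_pos hi, valL_valK, hl, f0_spec i hi] at h1
      exact h1.symm
    · rw [List.any_eq_true] at hl
      obtain ⟨m, hm, h1⟩ := hl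
      obtain ⟨h2, h3⟩ := irrF_sound h1
      obtain ⟨j, hj, hj19⟩ := mods_spec m hm
      refine Or.inl ⟨_, ?_, ⟨j, hj19, ?_⟩, h3, h2⟩
      · intro i hi
        have hv := h.val i
        rw [if_pos hi] at hv
        rw [addM, hv]
        split_ifs <;> omega
      · have hv := h.val j
        rw [if_pos hj19] at hv
        rw [addM, hv, if_pos hj]
        omega

/-! ### the search -/

lemma loop_sound (next : ℕ → ℕ → List (ℕ × ℕ × ℕ) → Bool) (i cd : ℕ) (L : List (ℕ × ℕ × ℕ))
    (v : ℕ) : ∀ (m k rem k0 : ℕ), k ≤ k0 → k0 < k + m → k0 < k + rem →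
      loop next i cd L ((List.range' k m).map (sc v)) k rem = true →
      body next i cd L k0 (sc v k0).1 (sc v k0).2 (rem - (k0 - k) - 1) = true := by
  intro m
  induction m with
  | zero => intro k rem k0 h1 h2; omega
  | succ m ih =>
    intro k rem k0 h1 h2 h3 h4
    rw [List.range'_succ, List.map_cons] at h4
    rcases rem with _ | r
    · omega
    · have h5 : loop next i cd L (((sc v k).1, (sc v k).2) :: (List.range' (k + 1) m).map (sc v))
          k (r + 1) = true := h4
      rw [loop] at h5
      split at h5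
      · rename_i hb
        by_cases hk : k = k0
        · subst hk
          have : r + 1 - (k - k) - 1 = r := by omega
          rw [this]
          exact hb
        · have h6 := ih (k + 1) r k0 (by omega) (by omega) (by omega) h5
          have : r + 1 - (k0 - k) - 1 = r - (k0 - (k + 1)) - 1 := by omega
          rw [this]
          exact h6
      · exact absurd h5 (by simp)

def TOK : List (ℕ × List (ℕ × ℕ)) → ℕ → Bool
  | [], v => v == 19
  | (i, bs) :: T, v => i == v && decide (v < 19) && (bs == (List.range' 1 6).map (sc v)) &&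
      TOK T (v + 1)

lemma TOK_TT : TOK TT 0 = true := by decide +kernel

lemma chk_sound {F : ℕ → ℕ} (hle : ∀ i < 19, F i ≤ ec i) (hI : IrrN F) :
    ∀ (T : List (ℕ × List (ℕ × ℕ))) (v rem cd : ℕ) (L : List (ℕ × ℕ × ℕ)), TOK T v = true →
      rem ≤ 6 → ∑ i ∈ Finset.Ico v 19, F i ≤ rem → Inv F v cd L → chk T rem cd L = true →
      Concl F := by
  intro T
  induction T with
  | nil =>
    intro v rem cd L hT _ _ hinv hc
    rw [TOK, beq_iff_eq] at hT
    subst hT
    rw [chk] at hc
    exact leaf_sound hinv hle hc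
  | cons a T ih =>
    obtain ⟨i, bs⟩ := a
    intro v rem cd L hT hrem hsum hinv hc
    rw [TOK, Bool.and_eq_true, Bool.and_eq_true, Bool.and_eq_true, beq_iff_eq, beq_iff_eq,
      decide_eq_true_eq] at hT
    obtain ⟨⟨⟨rfl, hv⟩, hbs⟩, hT'⟩ := hT
    rcases rem with _ | r
    · rw [chk] at hc
      have h0 : ∀ j, i ≤ j → j < 19 → F j = 0 := by
        intro j hj hj'
        have := Finset.single_le_sum (f := F) (fun _ _ => Nat.zero_le _)
          (Finset.mem_Ico.2 ⟨hj, hj'⟩)
        omega
      exact leaf_sound (hinv.full hv.le h0) hle hc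
    · rw [chk] at hc
      rw [Finset.sum_eq_sum_Ico_succ_bot hv] at hsum
      split at hc
      · rename_i hskip
        by_cases hF : F i = 0
        · exact ih (i + 1) (r + 1) cd L hT' hrem (by omega) (hinv.skip hF) hskip
        · have hk : F i ≤ r + 1 := by omega
          rw [hbs] at hc
          have hb := loop_sound (chk T) i cd L i 6 1 (r + 1) (F i) (by omega) (by omega)
            (by omega) hc
          have hr : r + 1 - (F i - 1) - 1 = r + 1 - F i := by omega
          rw [hr] at hb
          have hinv' := hinv.take hv (k := F i) (by omega) (by omega) rfl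
          rw [body] at hb
          split at hb
          · rename_i hp
            -- the private boundary of `i` is empty
            exfalso
            obtain ⟨u, hu, hpb⟩ := hI i hv (by omega)
            have h1 := (hinv'.ent _ List.mem_cons_self).2.2.2 u hu
            simp only at h1
            rw [hp] at h1
            have h2 := h1.2 ⟨hpb.1, hpb.2.1, fun j hj hji => hpb.2.2 j (by omega) hji⟩
            simp at h2
          · rename_i p hp
            split at hb
            · rename_i hcut
              exfalso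
              obtain ⟨e, he, h0⟩ := cutL_none hcut
              have hmem : (e.1, e.2.1, Nat.land e.2.2 (sc i (F i)).2) ∈
                  ((i, F i, Nat.land (sc i (F i)).1 cd) ::
                    L.map fun e => (e.1, e.2.1, Nat.land e.2.2 (sc i (F i)).2)) :=
                List.mem_cons_of_mem _ (List.mem_map.2 ⟨e, he, rfl⟩)
              obtain ⟨h1, h2, _, h4⟩ := hinv'.ent _ hmem
              simp only at h1 h2 h4
              have he19 := (hinv.ent e he).1
              obtain ⟨u, hu, hpb⟩ := hI e.1 (by omega) h2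
              have h5 := (h4 u hu).2 ⟨hpb.1, hpb.2.1, fun j hj hji => hpb.2.2 j (by omega) hji⟩
              rw [h0] at h5
              simp at h5
            · rename_i L' hcut
              have hL' := cutL_some hcut
              have hlist : ((i, F i, p + 1) :: L') = ((i, F i, Nat.land (sc i (F i)).1 cd) ::
                    L.map fun e => (e.1, e.2.1, Nat.land e.2.2 (sc i (F i)).2)) := by
                rw [hL', hp]
              split at hb
              · rename_i hcd
                rw [hlist] at hb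
                rw [hcd] at hinv'
                exact ih (i + 1) _ _ _ hT' (by omega) (by omega) hinv' hb
              · rename_i c hcd
                rw [hlist] at hb
                rw [hcd] at hinv'
                exact ih (i + 1) _ _ _ hT' (by omega) (by omega) hinv' hb
      · exact absurd hc (by simp)

theorem main1 {F : ℕ → ℕ} (hle : ∀ i < 19, F i ≤ ec i) (hI : IrrN F)
    (hsum : ∑ i ∈ Finset.range 19, F i ≤ 6) : Concl F := by
  refine chk_sound hle hI TT 0 6 M [] TOK_TT le_rfl ?_ ?_ chk_true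
  · rw [← Finset.range_eq_Ico]
    exact hsum
  · refine ⟨?_, ?_, ?_⟩
    · intro u hu
      rw [M_bit u hu]
      simp
    · intro i
      simp [valL]
    · intro e he
      simp at he

/-! ### maximality -/

def gv (pre : List ℕ) (i : ℕ) : ℕ := if i < pre.length then pre.getD i 0 else f0 i

def okPre (pre : List ℕ) : Bool :=
  (List.range pre.length).all fun x => gv pre x == 0 || pbm (gv pre) x != 0

def chk2 : ℕ → List ℕ → Bool
  | 0, pre => pre == (List.range 19).map f0
  | m + 1, pre => (List.range 15).all fun k =>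
      decide (ec pre.length < f0 pre.length + k) || !(okPre (pre ++ [f0 pre.length + k])) ||
        chk2 m (pre ++ [f0 pre.length + k])

lemma chk2_true : chk2 19 [] = true := by decide +kernel

lemma f0_le : ∀ i < 19, f0 i ≤ 14 := by decide +kernel

lemma chk2_sound {G : ℕ → ℕ} (h1 : ∀ i < 19, f0 i ≤ G i) (h2 : ∀ i < 19, G i ≤ ec i)
    (hI : IrrN G) : ∀ m ≤ 19, chk2 m ((List.range (19 - m)).map G) = true →
      ∀ i < 19, G i = f0 i := by
  intro m
  induction m with
  | zero =>
    intro _ h i hi
    rw [chk2, beq_iff_eq, Nat.sub_zero] at h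
    exact List.map_inj_left.1 h i (List.mem_range.2 hi)
  | succ m ih =>
    intro hm h
    set v := 19 - (m + 1) with hv
    have hv19 : v < 19 := by omega
    have hv' : 19 - m = v + 1 := by omega
    rw [chk2, List.all_eq_true] at h
    have hlen : ((List.range v).map G).length = v := by simp
    rw [hlen] at h
    have h3 := h (G v - f0 v) (List.mem_range.2 (by
      have := h2 v hv19; have := (ec_le v hv19).2; omega))
    have h4 : f0 v + (G v - f0 v) = G v := by have := h1 v hv19; omega
    rw [h4] at h3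
    have hpre : (List.range v).map G ++ [G v] = (List.range (19 - m)).map G := by
      rw [hv', List.range_succ, List.map_append]
      rfl
    rw [hpre] at h3
    rw [Bool.or_eq_true, Bool.or_eq_true, decide_eq_true_eq] at h3
    rcases h3 with (h3 | h3) | h3
    · have := h2 v hv19; omega
    · exfalso
      rw [Bool.not_eq_true', ← Bool.not_eq_true] at h3
      apply h3
      set pre := (List.range (19 - m)).map G with hpre'
      have hlen' : pre.length = 19 - m := by simp [hpre']
      have hgv : ∀ x < 19 - m, gv pre x = G x := by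
        intro x hx
        rw [gv, hlen', if_pos hx, hpre']
        rw [List.getD_eq_getElem?_getD, List.getElem?_map, List.getElem?_range hx]
        rfl
      have hgle : ∀ x < 19, gv pre x ≤ G x := by
        intro x hx
        by_cases hx' : x < 19 - m
        · rw [hgv x hx']
        · rw [gv, hlen', if_neg hx']
          exact h1 x hx
      have hg14 : ∀ x < 19, gv pre x ≤ 14 := by
        intro x hx
        have := hgle x hx
        have := h2 x hx
        have := (ec_le x hx).2
        omega
      rw [okPre, List.all_eq_true]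
      intro x hx
      rw [List.mem_range, hlen'] at hx
      rw [Bool.or_eq_true, beq_iff_eq, bne_iff_ne]
      by_cases hG : G x = 0
      · left; rw [hgv x hx, hG]
      · right
        obtain ⟨u, hu, hpb⟩ := hI x (by omega) (by omega)
        have hbit := (pbm_bit (g := gv pre) hg14 (by omega : x < 19) hu
          (by rw [hgv x hx]; omega)).2 (by
            refine ⟨by rw [hgv x hx]; exact hpb.1, by rw [hgv x hx]; exact hpb.2.1, ?_⟩
            intro i hi hix h5
            apply hpb.2.2 i hi hix
            have := hgle i hi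
            exact ⟨by omega, by omega⟩)
        intro h0
        rw [h0] at hbit
        simp at hbit
    · exact ih (by omega) h3

theorem main2 {G : ℕ → ℕ} (h1 : ∀ i < 19, f0 i ≤ G i) (h2 : ∀ i < 19, G i ≤ ec i)
    (hI : IrrN G) : ∀ i < 19, G i = f0 i :=
  chk2_sound h1 h2 hI 19 le_rfl chk2_true

end Pool.Agent.R358.BC
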