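import Pool.Agent.R358.BC.Def
import Pool.Agent.R358.BC.Snd

/-! The graph with 19 vertices. -/

set_option autoImplicit false

namespace Pool.Agent.R358.BC

lemma d_symm : ∀ a < 19, ∀ b < 19, d a b = d b a := by decide +kernel

lemma d_self : ∀ a < 19, d a a = 0 := by decide +kernel

lemma d_zero : ∀ a < 19, ∀ b < 19, d a b = 0 → a = b := by decide +kernel

lemma d_tri : ∀ a < 19, ∀ b < 19, d a b = 1 → ∀ c < 19, d a c ≤ d b c + 1 := by decide +kernel

lemma d_step : ∀ a < 19, ∀ b < 19, d a b ≠ 0 → ∃ c < 19, d a c = 1 ∧ d c b + 1 = d a b := by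
  decide +kernel

lemma d_le_ec : ∀ a < 19, ∀ b < 19, d a b ≤ ec a := by decide +kernel

lemma d_ec : ∀ a < 19, ∃ b < 19, d a b = ec a := by decide +kernel

/-- the graph -/
def G0 : SimpleGraph (Fin 19) where
  Adj a b := d a b = 1
  symm := ⟨fun a b h => by
    change d b a = 1
    rw [d_symm b b.2 a a.2]
    exact h⟩
  loopless := ⟨fun a h => by
    have h' : d a a = 1 := h
    rw [d_self a a.2] at h'
    exact absurd h' (by norm_num)⟩

lemma walk_le {a b : Fin 19} (p : G0.Walk a b) : d a b ≤ p.length := by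
  induction p with
  | nil => rw [d_self _ (Fin.is_lt _)]; exact Nat.zero_le _
  | @cons u v w h p ih =>
    have h' : d u v = 1 := h
    have := d_tri u u.2 v v.2 h' w w.2
    rw [SimpleGraph.Walk.length_cons]
    omega

lemma exists_walk : ∀ (n : ℕ) (a b : Fin 19), d a b = n → ∃ p : G0.Walk a b, p.length = n := by
  intro n
  induction n with
  | zero =>
    intro a b h
    have : a = b := Fin.ext (d_zero a a.2 b b.2 h)
    subst this
    exact ⟨SimpleGraph.Walk.nil, rfl⟩
  | succ n ih =>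
    intro a b h
    obtain ⟨c, hc, h1, h2⟩ := d_step a a.2 b b.2 (by omega)
    obtain ⟨p, hp⟩ := ih ⟨c, hc⟩ b (by simp only; omega)
    have hadj : G0.Adj a ⟨c, hc⟩ := h1
    exact ⟨SimpleGraph.Walk.cons hadj p, by rw [SimpleGraph.Walk.length_cons, hp]⟩

lemma reach (a b : Fin 19) : G0.Reachable a b := by
  obtain ⟨p, _⟩ := exists_walk _ a b rfl
  exact ⟨p⟩

lemma dist_eq (a b : Fin 19) : G0.dist a b = d a b := by
  obtain ⟨p, hp⟩ := exists_walk _ a b rfl
  apply le_antisymm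
  · rw [← hp]
    exact SimpleGraph.dist_le p
  · obtain ⟨q, hq⟩ := (reach a b).exists_walk_length_eq_dist
    rw [← hq]
    exact walk_le q

lemma G0_connected : G0.Connected :=
  { preconnected := reach, nonempty := ⟨0⟩ }

/-- extension by zero -/
def ex (f : Fin 19 → ℕ) (i : ℕ) : ℕ := if h : i < 19 then f ⟨i, h⟩ else 0

lemma ex_val (f : Fin 19 → ℕ) (i : Fin 19) : ex f i = f i := by
  rw [ex, dif_pos i.2]

lemma broadcast_iff (f : Fin 19 → ℕ) : IsBroadcast G0 f ↔ ∀ i < 19, ex f i ≤ ec i := by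
  constructor
  · intro h i hi
    obtain ⟨u, _, hu⟩ := h ⟨i, hi⟩
    rw [dist_eq] at hu
    have h1 := ex_val f ⟨i, hi⟩
    simp only at h1 hu
    rw [h1]
    exact hu.trans (d_le_ec i hi u u.2)
  · intro h v
    obtain ⟨b, hb, hd⟩ := d_ec v v.2
    refine ⟨⟨b, hb⟩, reach _ _, ?_⟩
    rw [dist_eq, ← ex_val f v]
    simp only
    rw [hd]
    exact h v v.2

lemma hears_iff (f : Fin 19 → ℕ) (u v : Fin 19) : Hears G0 f u v ↔ 0 < f v ∧ d v u ≤ f v := by
  rw [Hears, dist_eq, d_symm u u.2 v v.2]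
  constructor
  · rintro ⟨h1, _, h2⟩
    exact ⟨h1, h2⟩
  · rintro ⟨h1, h2⟩
    exact ⟨h1, reach _ _, h2⟩

lemma pb_iff (f : Fin 19 → ℕ) (v u : Fin 19) : u ∈ PB G0 f v ↔ PBset (ex f) v u := by
  have h0 : u ∈ PB G0 f v ↔ (G0.Reachable u v ∧ G0.dist u v ≤ f v) ∧
    ∀ w, ¬ Hears G0 (Function.update f v (f v - 1)) u w := Iff.rfl
  rw [h0, PBset, dist_eq, d_symm u u.2 v v.2, ex_val]
  constructor
  · rintro ⟨⟨_, h1⟩, h2⟩
    refine ⟨h1, ?_, ?_⟩
    · have h3 := h2 v
      rw [hears_iff, Function.update_self] at h3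
      exact h3
    · intro i hi hiv h4
      have h3 := h2 ⟨i, hi⟩
      have hne : (⟨i, hi⟩ : Fin 19) ≠ v := fun h => hiv (by rw [← h])
      rw [hears_iff, Function.update_of_ne hne] at h3
      apply h3
      have h5 := ex_val f ⟨i, hi⟩
      simp only at h5
      rw [h5] at h4
      exact h4
  · rintro ⟨h1, h2, h3⟩
    refine ⟨⟨reach _ _, h1⟩, ?_⟩
    intro w hw
    rw [hears_iff] at hw
    by_cases hwv : w = v
    · subst hwv
      rw [Function.update_self] at hw
      exact h2 hw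
    · rw [Function.update_of_ne hwv] at hw
      apply h3 w w.2 (fun h => hwv (Fin.ext h))
      rw [ex_val]
      exact hw

lemma irr_iff (f : Fin 19 → ℕ) : Irredundant G0 f ↔ IrrN (ex f) := by
  constructor
  · intro h x hx h0
    have h1 := ex_val f ⟨x, hx⟩
    simp only at h1
    obtain ⟨u, hu⟩ := h ⟨x, hx⟩ (by rw [← h1]; exact h0)
    exact ⟨u, u.2, (pb_iff f ⟨x, hx⟩ u).1 hu⟩
  · intro h v h0
    obtain ⟨u, hu, hpb⟩ := h v v.2 (by rw [ex_val]; exact h0)
    exact ⟨⟨u, hu⟩, (pb_iff f v ⟨u, hu⟩).2 hpb⟩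

lemma irrN_congr {F F' : ℕ → ℕ} (h : ∀ i < 19, F i = F' i) (hI : IrrN F) : IrrN F' := by
  intro x hx h0
  rw [← h x hx] at h0
  obtain ⟨u, hu, h1, h2, h3⟩ := hI x hx h0
  refine ⟨u, hu, ?_, ?_, ?_⟩
  · rw [← h x hx]; exact h1
  · rw [← h x hx]; exact h2
  · intro i hi hix
    rw [← h i hi]
    exact h3 i hi hix

/-- the broadcast with the values one at six vertices -/
def b0 (i : Fin 19) : ℕ := f0 i

lemma ex_b0 : ∀ i < 19, ex b0 i = f0 i := by decide +kernel

lemma cost_eq (f : Fin 19 → ℕ) : cost f = ∑ i ∈ Finset.range 19, ex f i := by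
  rw [cost, Finset.sum_range]
  exact Finset.sum_congr rfl fun i _ => (ex_val f i).symm

theorem maximal_eq {f : Fin 19 → ℕ} (hf : MaximalIrredundant G0 f) (hc : cost f ≤ 6) : f = b0 := by
  obtain ⟨h1, h2, h3⟩ := hf
  rw [broadcast_iff] at h1
  rw [irr_iff] at h2
  rw [cost_eq] at hc
  rcases main1 h1 h2 hc with ⟨g, hg1, ⟨j, hj, hg2⟩, hg3, hg4⟩ | h
  · exfalso
    have hex : ∀ i < 19, g i = ex (fun i : Fin 19 => g i) i := by
      intro i hi
      rw [ex, dif_pos hi]
    refine h3 (fun i => g i) ?_ ?_ ?_ ?_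
    · rw [broadcast_iff]
      intro i hi
      rw [← hex i hi]
      exact hg3 i hi
    · intro v
      rw [← ex_val f v]
      exact hg1 v v.2
    · intro heq
      apply hg2
      have := congrFun heq ⟨j, hj⟩
      simp only at this
      rw [this]
      exact ex_val f ⟨j, hj⟩
    · rw [irr_iff]
      exact irrN_congr hex hg4
  · ext i
    have := h i i.2
    rw [ex_val] at this
    exact this

lemma b0_irr : irrF f0 = true := by decide +kernel

theorem b0_maximal : MaximalIrredundant G0 b0 := by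
  obtain ⟨h1, h2⟩ := irrF_sound b0_irr
  refine ⟨?_, ?_, ?_⟩
  · rw [broadcast_iff]
    intro i hi
    rw [ex_b0 i hi]
    exact h2 i hi
  · rw [irr_iff]
    exact irrN_congr (fun i hi => (ex_b0 i hi).symm) h1
  · intro g hg hle hne hirr
    rw [broadcast_iff] at hg
    rw [irr_iff] at hirr
    apply hne
    have h3 := main2 (G := ex g) (by
      intro i hi
      rw [← ex_b0 i hi]
      have h4 := hle ⟨i, hi⟩
      have h5 := ex_val g ⟨i, hi⟩
      have h6 := ex_val b0 ⟨i, hi⟩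
      simp only at h5 h6
      omega) hg hirr
    ext i
    have h4 := h3 i i.2
    rw [ex_val] at h4
    exact h4

lemma cost_b0 : cost b0 = 6 := by decide +kernel

theorem ir_six : irNumber G0 = 6 := by
  apply le_antisymm
  · exact Nat.sInf_le ⟨b0, b0_maximal, cost_b0⟩
  · by_contra hlt
    have hne : {c | ∃ f, MaximalIrredundant G0 f ∧ cost f = c}.Nonempty := ⟨6, b0, b0_maximal, cost_b0⟩
    obtain ⟨f, hf, hc⟩ := Nat.sInf_mem hne
    have hlt' : sInf {c | ∃ f, MaximalIrredundant G0 f ∧ cost f = c} < 6 := not_le.1 hlt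
    have := maximal_eq hf (by omega)
    rw [this, cost_b0] at hc
    omega

def vt (a : Fin 3 × Fin 2) : Fin 19 := (![![2, 3], ![6, 7], ![12, 13]] a.1) a.2

lemma vt_inj : Function.Injective vt := by decide

lemma vt_adj : ∀ a b : Fin 3 × Fin 2, d (vt a) (vt b) = 1 ↔ (a.1 = b.1 ∧ a.2 ≠ b.2) := by
  decide +kernel

lemma vt_supp : ∀ v : Fin 19, 0 < b0 v → ∃ a, vt a = v := by decide +kernel

lemma vt_pos : ∀ a, 0 < b0 (vt a) := by decide +kernel

theorem b0_good : Good G0 b0 := by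
  refine ⟨by decide +kernel, 3, ⟨?_⟩⟩
  have hbij : Function.Bijective (fun a : Fin 3 × Fin 2 =>
      (⟨vt a, vt_pos a⟩ : {v : Fin 19 | 0 < b0 v})) := by
    constructor
    · intro a b h
      exact vt_inj (congrArg Subtype.val h)
    · rintro ⟨v, hv⟩
      obtain ⟨a, ha⟩ := vt_supp v hv
      exact ⟨a, Subtype.ext ha⟩
  refine RelIso.symm ⟨Equiv.ofBijective _ hbij, ?_⟩
  intro a b
  exact vt_adj a b

theorem all_good (f : Fin 19 → ℕ) (hf : IsIrBroadcast G0 f) : Good G0 f := by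
  have := maximal_eq hf.1 (by rw [hf.2, ir_six])
  rw [this]
  exact b0_good

end Pool.Agent.R358.BC
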