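import Mathlib

/-! A search among the irredundant broadcasts of a graph with 19 vertices. -/

set_option autoImplicit false
set_option linter.style.longLine false

namespace Pool.Agent.R358.BC

/-- the distance table -/
def DT : List (List ℕ) :=
  [[0, 1, 2, 3, 4, 5, 6, 7, 8, 9, 10, 11, 12, 13, 14, 3, 5, 7, 12],
   [1, 0, 1, 2, 3, 4, 5, 6, 7, 8, 9, 10, 11, 12, 13, 2, 4, 6, 11],
   [2, 1, 0, 1, 2, 3, 4, 5, 6, 7, 8, 9, 10, 11, 12, 1, 3, 5, 10],
   [3, 2, 1, 0, 1, 2, 3, 4, 5, 6, 7, 8, 9, 10, 11, 1, 2, 4, 9],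
   [4, 3, 2, 1, 0, 1, 2, 3, 4, 5, 6, 7, 8, 9, 10, 2, 1, 3, 8],
   [5, 4, 3, 2, 1, 0, 1, 2, 3, 4, 5, 6, 7, 8, 9, 3, 2, 2, 7],
   [6, 5, 4, 3, 2, 1, 0, 1, 2, 3, 4, 5, 6, 7, 8, 4, 3, 1, 6],
   [7, 6, 5, 4, 3, 2, 1, 0, 1, 2, 3, 4, 5, 6, 7, 5, 4, 1, 5],
   [8, 7, 6, 5, 4, 3, 2, 1, 0, 1, 2, 3, 4, 5, 6, 6, 5, 2, 4],
   [9, 8, 7, 6, 5, 4, 3, 2, 1, 0, 1, 2, 3, 4, 5, 7, 6, 3, 3],
   [10, 9, 8, 7, 6, 5, 4, 3, 2, 1, 0, 1, 2, 3, 4, 8, 7, 4, 2],
   [11, 10, 9, 8, 7, 6, 5, 4, 3, 2, 1, 0, 1, 2, 3, 9, 8, 5, 1],
   [12, 11, 10, 9, 8, 7, 6, 5, 4, 3, 2, 1, 0, 1, 2, 10, 9, 6, 2],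
   [13, 12, 11, 10, 9, 8, 7, 6, 5, 4, 3, 2, 1, 0, 1, 11, 10, 7, 3],
   [14, 13, 12, 11, 10, 9, 8, 7, 6, 5, 4, 3, 2, 1, 0, 12, 11, 8, 4],
   [3, 2, 1, 1, 2, 3, 4, 5, 6, 7, 8, 9, 10, 11, 12, 0, 3, 5, 10],
   [5, 4, 3, 2, 1, 2, 3, 4, 5, 6, 7, 8, 9, 10, 11, 3, 0, 4, 9],
   [7, 6, 5, 4, 3, 2, 1, 1, 2, 3, 4, 5, 6, 7, 8, 5, 4, 0, 6],
   [12, 11, 10, 9, 8, 7, 6, 5, 4, 3, 2, 1, 2, 3, 4, 10, 9, 6, 0]]

/-- the balls, radii 1 to 14, as bit masks -/
def BT : List (List ℕ) :=
  [[3, 7, 32783, 32799, 98367, 98431, 229631, 229887, 230399, 231423, 233471, 499711, 507903, 524287],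
   [7, 32783, 32799, 98367, 98431, 229631, 229887, 230399, 231423, 233471, 499711, 507903, 524287, 524287],
   [32782, 32799, 98367, 98431, 229631, 229887, 230399, 231423, 233471, 499711, 507903, 524287, 524287, 524287],
   [32796, 98366, 98431, 229631, 229887, 230399, 231423, 233471, 499711, 507903, 524287, 524287, 524287, 524287],
   [65592, 98428, 229630, 229887, 230399, 231423, 233471, 499711, 507903, 524287, 524287, 524287, 524287, 524287],
   [112, 196856, 229884, 230398, 231423, 233471, 499711, 507903, 524287, 524287, 524287, 524287, 524287, 524287],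
   [131296, 131568, 197624, 231420, 233470, 499711, 507903, 524287, 524287, 524287, 524287, 524287, 524287, 524287],
   [131520, 132064, 133104, 200696, 499708, 507902, 524287, 524287, 524287, 524287, 524287, 524287, 524287, 524287],
   [896, 133056, 135136, 401392, 475128, 524284, 524286, 524287, 524287, 524287, 524287, 524287, 524287, 524287],
   [1792, 3968, 401344, 409568, 425968, 491512, 524284, 524286, 524287, 524287, 524287, 524287, 524287, 524287],
   [3584, 270080, 278400, 425920, 425952, 425968, 491512, 524284, 524286, 524287, 524287, 524287, 524287, 524287],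
   [269312, 278016, 294656, 294784, 425920, 425952, 425968, 491512, 524284, 524286, 524287, 524287, 524287, 524287],
   [14336, 293888, 294400, 294656, 294784, 425920, 425952, 425968, 491512, 524284, 524286, 524287, 524287, 524287],
   [28672, 30720, 293888, 294400, 294656, 294784, 425920, 425952, 425968, 491512, 524284, 524286, 524287, 524287],
   [24576, 28672, 30720, 293888, 294400, 294656, 294784, 425920, 425952, 425968, 491512, 524284, 524286, 524287],
   [32780, 32798, 98367, 98431, 229631, 229887, 230399, 231423, 233471, 499711, 507903, 524287, 524287, 524287],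
   [65552, 65592, 98428, 229630, 229887, 230399, 231423, 233471, 499711, 507903, 524287, 524287, 524287, 524287],
   [131264, 131552, 132080, 198648, 233468, 499710, 507903, 524287, 524287, 524287, 524287, 524287, 524287, 524287],
   [264192, 269312, 278016, 294656, 294784, 425920, 425952, 425968, 491512, 524284, 524286, 524287, 524287, 524287]]

/-- the table of the search: spheres and complements of balls, radii 1 to 6 -/
def TT : List (ℕ × List (ℕ × ℕ)) :=
  [(0, [(3, 524284), (4, 524280), (32776, 491504), (16, 491488), (65568, 425920), (64, 425856)]),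
   (1, [(7, 524280), (32776, 491504), (16, 491488), (65568, 425920), (64, 425856), (131200, 294656)]),
   (2, [(32782, 491505), (17, 491488), (65568, 425920), (64, 425856), (131200, 294656), (256, 294400)]),
   (3, [(32796, 491491), (65570, 425921), (65, 425856), (131200, 294656), (256, 294400), (512, 293888)]),
   (4, [(65592, 458695), (32836, 425859), (131202, 294657), (257, 294400), (512, 293888), (1024, 292864)]),
   (5, [(112, 524175), (196744, 327431), (33028, 294403), (514, 293889), (1025, 292864), (2048, 290816)]),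
   (6, [(131296, 392991), (272, 392719), (66056, 326663), (33796, 292867), (2050, 290817), (266241, 24576)]),
   (7, [(131520, 392767), (544, 392223), (1040, 391183), (67592, 323591), (299012, 24579), (8194, 16385)]),
   (8, [(896, 523391), (132160, 391231), (2080, 389151), (266256, 122895), (73736, 49159), (49156, 3)]),
   (9, [(1792, 522495), (2176, 520319), (397376, 122943), (8224, 114719), (16400, 98319), (65544, 32775)]),
   (10, [(3584, 520703), (266496, 254207), (8320, 245887), (147520, 98367), (32, 98335), (16, 98319)]),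
   (11, [(269312, 254975), (8704, 246271), (16640, 229631), (128, 229503), (131136, 98367), (32, 98335)]),
   (12, [(14336, 509951), (279552, 230399), (512, 229887), (256, 229631), (128, 229503), (131136, 98367)]),
   (13, [(28672, 495615), (2048, 493567), (263168, 230399), (512, 229887), (256, 229631), (128, 229503)]),
   (14, [(24576, 499711), (4096, 495615), (2048, 493567), (263168, 230399), (512, 229887), (256, 229631)]),
   (15, [(32780, 491507), (18, 491489), (65569, 425920), (64, 425856), (131200, 294656), (256, 294400)]),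
   (16, [(65552, 458735), (40, 458695), (32836, 425859), (131202, 294657), (257, 294400), (512, 293888)]),
   (17, [(131264, 393023), (288, 392735), (528, 392207), (66568, 325639), (34820, 290819), (266242, 24577)]),
   (18, [(264192, 260095), (5120, 254975), (8704, 246271), (16640, 229631), (128, 229503), (131136, 98367)])]

def QT : List (ℕ × ℕ × ℕ) :=
  [(14, 24576, 499711), (0, 3, 524284), (5, 112, 524175), (10, 3584, 520703), (2, 32782, 491505), (8, 896, 523391), (16, 65552, 458735), (18, 264192, 260095), (6, 131296, 392991), (7, 131520, 392767), (12, 14336, 509951), (9, 1792, 522495)]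

def EC : List ℕ := [14, 13, 12, 11, 10, 9, 8, 7, 8, 9, 10, 11, 12, 13, 14, 12, 11, 8, 12]

def M : ℕ := 524287

def d (i j : ℕ) : ℕ := (DT.getD i []).getD j 0

def ec (i : ℕ) : ℕ := EC.getD i 0

/-- the ball of radius `k` as a mask (empty for `k = 0`) -/
def bm (i k : ℕ) : ℕ := match k with
  | 0 => 0
  | k + 1 => (BT.getD i []).getD k 0

/-- remove the complement of `c` from all the private boundaries -/
def cutL (c : ℕ) : List (ℕ × ℕ × ℕ) → Option (List (ℕ × ℕ × ℕ))
  | [] => some []
  | (v, k, p) :: L =>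
    match Nat.land p c with
    | 0 => none
    | q + 1 =>
      match cutL c L with
      | none => none
      | some L' => some ((v, k, q + 1) :: L')

def aliveL (c : ℕ) : List (ℕ × ℕ × ℕ) → Bool
  | [] => true
  | (_, _, p) :: L =>
    match Nat.land p c with
    | 0 => false
    | _ + 1 => aliveL c L

def quick (cd : ℕ) (L : List (ℕ × ℕ × ℕ)) : List (ℕ × ℕ × ℕ) → Bool
  | [] => false
  | (_, b, cb) :: Q =>
    match Nat.land b cd with
    | 0 => quick cd L Q
    | _ + 1 => match aliveL cb L with
      | true => true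
      | false => quick cd L Q

/-- the value of a broadcast given as a list -/
def valL : List (ℕ × ℕ × ℕ) → ℕ → ℕ
  | [], _ => 0
  | (v, k, _) :: L, i => if i = v then k else valL L i

/-- what is heard from others, or from `x` with the value lowered by one -/
def orAll (g : ℕ → ℕ) (x : ℕ) : List ℕ → ℕ
  | [] => 0
  | i :: l => Nat.lor (orAll g x l) (if i = x then bm x (g x - 1) else bm i (g i))

def pbm (g : ℕ → ℕ) (x : ℕ) : ℕ :=
  Nat.land (bm x (g x)) (Nat.xor M (orAll g x (List.range 19)))

def irrF (g : ℕ → ℕ) : Bool :=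
  (List.range 19).all fun x => (g x == 0 || pbm g x != 0) && decide (g x ≤ ec x)

def mods : List (List ℕ) := [[2, 3], [2], [13], [11], [7]]

def addM (m : List ℕ) (g : ℕ → ℕ) (i : ℕ) : ℕ := if i ∈ m then g i + 1 else g i

def isF0 (L : List (ℕ × ℕ × ℕ)) : Bool :=
  L.map (fun e => (e.1, e.2.1)) == [(13, 1), (12, 1), (7, 1), (6, 1), (3, 1), (2, 1)]

def leaf (cd : ℕ) (L : List (ℕ × ℕ × ℕ)) : Bool :=
  match quick cd L QT with
  | true => true
  | false => isF0 L || mods.any fun m => irrF (addM m (valL L))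

def body (next : ℕ → ℕ → List (ℕ × ℕ × ℕ) → Bool) (i cd : ℕ) (L : List (ℕ × ℕ × ℕ))
    (k s cb r : ℕ) : Bool :=
  match Nat.land s cd with
  | 0 => true
  | p + 1 =>
    match cutL cb L with
    | none => true
    | some L' =>
      match Nat.land cd cb with
      | 0 => next r 0 ((i, k, p + 1) :: L')
      | c + 1 => next r (c + 1) ((i, k, p + 1) :: L')

def loop (next : ℕ → ℕ → List (ℕ × ℕ × ℕ) → Bool) (i cd : ℕ) (L : List (ℕ × ℕ × ℕ)) :
    List (ℕ × ℕ) → ℕ → ℕ → Bool
  | [], _, _ => true
  | (s, cb) :: bs, k, rem =>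
    match rem with
    | 0 => true
    | r + 1 =>
      match body next i cd L k s cb r with
      | true => loop next i cd L bs (k + 1) r
      | false => false

def chk : List (ℕ × List (ℕ × ℕ)) → ℕ → ℕ → List (ℕ × ℕ × ℕ) → Bool
  | [], _, cd, L => leaf cd L
  | (i, bs) :: T, rem, cd, L =>
    match rem with
    | 0 => leaf cd L
    | r + 1 =>
      match chk T (r + 1) cd L with
      | true => loop (chk T) i cd L bs 1 (r + 1)
      | false => false

theorem chk_true : chk TT 6 M [] = true := by decide +kernel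

end Pool.Agent.R358.BC
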